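import Pool.Agent.H.MP_17585b_co.E

set_option autoImplicit false

namespace Pool.Agent.Results.MP_17585b_co.Gap

open Pool.Agent.H.MP_17585b_co

theorem result : ∃ (E : Finset ℕ) (r : Finset ℕ → ℕ), E.Nonempty ∧ IsMat r ∧ Dep TCsD 7 E r ∧
    ∀ (E' : Finset ℕ) (r' : Finset ℕ → ℕ), IsMat r' → E ⊆ E' → (∀ X ⊆ E, r' X = r X) →
      ¬ Dep TCD 7 E' r' :=
  ⟨UU 60002, rM, ⟨0, mem_UU.2 (by omega)⟩, ⟨rM_RK.emp, rM_RK.mono, rM_RK.sub, rM_RK.one⟩, upper,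
    fun _ _ h hE hr => lower ⟨h.1, h.2.1, h.2.2.1, h.2.2.2⟩ hr hE⟩

end Pool.Agent.Results.MP_17585b_co.Gap
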